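import Mathlib

set_option autoImplicit false

namespace Pool.Agent.H727R2.BQ

open Finset Polynomial

/-- the number whose base-4 digits are `1` at the places in `S` and `0` elsewhere -/
def val (S : Finset ℕ) : ℕ := ∑ i ∈ S, 4 ^ i

lemma val_inj : Function.Injective val := Finset.geomSum_injective (by norm_num)

/-- the subsets of `{0, …, N-1}` -/
abbrev P (N : ℕ) : Finset (Finset ℕ) := (range N).powerset

lemma three_sum (N : ℕ) : 3 * (∑ i ∈ range N, 4 ^ i) + 1 = 4 ^ N := by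
  induction N with
  | zero => simp
  | succ n ih => rw [sum_range_succ, pow_succ]; omega

lemma val_bound {N : ℕ} {S : Finset ℕ} (h : S ∈ P N) : 3 * val S < 4 ^ N := by
  have h1 : val S ≤ ∑ i ∈ range N, 4 ^ i :=
    sum_le_sum_of_subset (mem_powerset.1 h)
  have := three_sum N
  omega

/-- concatenation of digit strings -/
def cat (N : ℕ) (S T : Finset ℕ) : Finset ℕ := S ∪ T.map (addLeftEmbedding N)

lemma val_cat {N : ℕ} {S T : Finset ℕ} (h : S ∈ P N) : val (cat N S T) = val S + 4 ^ N * val T := by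
  unfold val cat
  rw [sum_union, sum_map, mul_sum]
  · congr 1
    apply sum_congr rfl
    intro i _
    simp [pow_add]
  · rw [disjoint_left]
    intro a ha hb
    have h1 := mem_range.1 (mem_powerset.1 h ha)
    rw [mem_map] at hb
    obtain ⟨b, _, rfl⟩ := hb
    simp at h1

lemma cat_mem {N M : ℕ} {S T : Finset ℕ} (hS : S ∈ P N) (hT : T ∈ P M) : cat N S T ∈ P (N + M) := by
  rw [mem_powerset] at *
  intro a ha
  unfold cat at ha
  rw [mem_union, mem_map] at ha
  rcases ha with ha | ⟨b, hb, rfl⟩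
  · have := mem_range.1 (hS ha)
    exact mem_range.2 (by omega)
  · have := mem_range.1 (hT hb)
    simp; exact this

lemma pow_sum_val {R : Type*} [CommSemiring R] (x : R) (j : ℕ) :
    ∑ S ∈ P j, x ^ val S = ∏ i ∈ range j, (1 + x ^ (4 ^ i)) := by
  rw [prod_one_add]
  apply sum_congr rfl
  intro S _
  unfold val
  rw [prod_pow_eq_pow_sum]

/-- the triples (carry, digits, digits) -/
abbrev tri (C : Finset ℕ) (j : ℕ) : Finset (ℕ × (Finset ℕ × Finset ℕ)) := C ×ˢ (P j ×ˢ P j)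

/-- the sum of a triple -/
def phi (k : ℕ) (p : ℕ × (Finset ℕ × Finset ℕ)) : ℕ := p.1 + (k * val p.2.1 + val p.2.2)

lemma sum_tri (x : ℂ) (k j : ℕ) (C : Finset ℕ) :
    ∑ p ∈ tri C j, x ^ phi k p = (∑ c ∈ C, x ^ c) *
      ((∏ i ∈ range j, (1 + (x ^ k) ^ (4 ^ i))) * ∏ i ∈ range j, (1 + x ^ (4 ^ i))) := by
  rw [← pow_sum_val, ← pow_sum_val, sum_mul_sum, sum_product, sum_mul]
  apply sum_congr rfl
  intro c _
  rw [sum_product, mul_sum]
  apply sum_congr rfl
  intro S _
  rw [mul_sum]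
  apply sum_congr rfl
  intro T _
  unfold phi
  simp only
  rw [pow_add, pow_add, pow_mul]

lemma card_tri (C : Finset ℕ) (j : ℕ) : (tri C j).card = C.card * 4 ^ j := by
  rw [card_product, card_product, card_powerset, card_range, ← mul_pow]
  norm_num

/-- if no residue class is hit more than `|C|` times then all are hit exactly `|C|` times -/
lemma fibre_eq (k j : ℕ) (C : Finset ℕ)
    (h : ∀ r < 4 ^ j, ((tri C j).filter (fun p => phi k p % 4 ^ j = r)).card ≤ C.card) :
    ∀ r ∈ range (4 ^ j), ((tri C j).filter (fun p => phi k p % 4 ^ j = r)).card = C.card := by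
  have h1 : (tri C j).card
      = ∑ r ∈ range (4 ^ j), ((tri C j).filter (fun p => phi k p % 4 ^ j = r)).card := by
    apply card_eq_sum_card_fiberwise
    intro p _
    simp only [coe_range, Set.mem_Iio]
    exact Nat.mod_lt _ (by positivity)
  have h2 : ∑ r ∈ range (4 ^ j), ((tri C j).filter (fun p => phi k p % 4 ^ j = r)).card
      = ∑ r ∈ range (4 ^ j), C.card := by
    rw [← h1, card_tri, sum_const, card_range, smul_eq_mul, mul_comm]
  exact (sum_eq_sum_iff_of_le (fun r hr => h r (mem_range.1 hr))).1 h2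

lemma sum_zero (k j : ℕ) (C : Finset ℕ)
    (h : ∀ r < 4 ^ j, ((tri C j).filter (fun p => phi k p % 4 ^ j = r)).card ≤ C.card)
    (z : ℂ) (hz : z ^ (4 ^ j) = 1) (hz1 : z ≠ 1) : ∑ p ∈ tri C j, z ^ phi k p = 0 := by
  have h1 : ∑ p ∈ tri C j, z ^ phi k p
      = ∑ r ∈ range (4 ^ j), ∑ p ∈ (tri C j).filter (fun p => phi k p % 4 ^ j = r), z ^ phi k p := by
    rw [sum_fiberwise_of_maps_to]
    intro p _
    exact mem_range.2 (Nat.mod_lt _ (by positivity))
  rw [h1]
  have h2 : ∀ r ∈ range (4 ^ j),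
      ∑ p ∈ (tri C j).filter (fun p => phi k p % 4 ^ j = r), z ^ phi k p = (C.card : ℂ) * z ^ r := by
    intro r hr
    rw [← fibre_eq k j C h r hr, ← nsmul_eq_mul, ← sum_const]
    apply sum_congr rfl
    intro p hp
    rw [mem_filter] at hp
    rw [← hp.2]
    conv_lhs => rw [← Nat.div_add_mod (phi k p) (4 ^ j), pow_add, pow_mul, hz, one_pow, one_mul]
  rw [sum_congr rfl h2, ← mul_sum]
  have h3 := mul_geom_sum z (4 ^ j)
  rw [hz, sub_self] at h3
  have h4 : z - 1 ≠ 0 := sub_ne_zero.2 hz1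
  rw [(mul_eq_zero.1 h3).resolve_left h4, mul_zero]

lemma factor_ne {k a i : ℕ} (hk : Odd k) (z : ℂ) (hz : IsPrimitiveRoot z (4 ^ a)) :
    1 + (z ^ k) ^ (4 ^ i) ≠ 0 := by
  intro h
  rw [← pow_mul] at h
  have h1 : z ^ (k * 4 ^ i) = -1 := by linear_combination h
  by_cases hai : a ≤ i
  · have h2 : z ^ (k * 4 ^ i) = 1 := by
      rw [hz.pow_eq_one_iff_dvd]
      exact Dvd.dvd.mul_left (pow_dvd_pow 4 hai) k
    rw [h2] at h1
    norm_num at h1
  · have h2 : z ^ (2 * (k * 4 ^ i)) = 1 := by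
      rw [mul_comm, pow_mul, h1]; norm_num
    rw [hz.pow_eq_one_iff_dvd] at h2
    have h3 : 4 ^ (i + 1) ∣ 2 * (k * 4 ^ i) := (pow_dvd_pow 4 (by omega)).trans h2
    have h4 : 4 ∣ 2 * k := by
      have h5 : 4 ^ i * 4 ∣ 4 ^ i * (2 * k) := by
        rw [← pow_succ]
        have : 4 ^ i * (2 * k) = 2 * (k * 4 ^ i) := by ring
        rw [this]; exact h3
      exact Nat.dvd_of_mul_dvd_mul_left (by positivity) h5
    rw [Nat.odd_iff] at hk
    omega

lemma root_sum (k j a : ℕ) (hk : Odd k) (C : Finset ℕ)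
    (h : ∀ r < 4 ^ j, ((tri C j).filter (fun p => phi k p % 4 ^ j = r)).card ≤ C.card)
    (ha : 1 ≤ a) (haj : a ≤ j) (z : ℂ) (hz : IsPrimitiveRoot z (4 ^ a)) : ∑ c ∈ C, z ^ c = 0 := by
  have h1 : z ^ (4 ^ j) = 1 := by
    rw [hz.pow_eq_one_iff_dvd]; exact pow_dvd_pow 4 haj
  have h2 : z ≠ 1 := hz.ne_one (Nat.one_lt_pow (by omega) (by norm_num))
  have h3 := sum_zero k j C h z h1 h2
  rw [sum_tri] at h3
  have h4 : (∏ i ∈ range j, (1 + (z ^ k) ^ (4 ^ i))) * ∏ i ∈ range j, (1 + z ^ (4 ^ i)) ≠ 0 := by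
    apply mul_ne_zero
    · exact prod_ne_zero_iff.2 (fun i _ => factor_ne hk z hz)
    · refine prod_ne_zero_iff.2 (fun i _ => ?_)
      have := factor_ne (k := 1) (i := i) (by decide) z hz
      rwa [pow_one] at this
  exact (mul_eq_zero.1 h3).resolve_right h4

/-- the generating polynomial -/
noncomputable def gen (C : Finset ℕ) : ℤ[X] := ∑ c ∈ C, X ^ c

lemma cyc_dvd (k j a : ℕ) (hk : Odd k) (C : Finset ℕ)
    (h : ∀ r < 4 ^ j, ((tri C j).filter (fun p => phi k p % 4 ^ j = r)).card ≤ C.card)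
    (haj : a < j) : cyclotomic (2 ^ (2 * a + 1 + 1)) ℤ ∣ gen C := by
  have hpow : (2:ℕ) ^ (2 * a + 1 + 1) = 4 ^ (a + 1) := by
    rw [show 2 * a + 1 + 1 = 2 * (a + 1) by ring, pow_mul]
    norm_num
  have hz := Complex.isPrimitiveRoot_exp (4 ^ (a + 1)) (by positivity)
  rw [hpow, cyclotomic_eq_minpoly hz (by positivity)]
  apply minpoly.isIntegrallyClosed_dvd (hz.isIntegral (by positivity))
  have := root_sum k j (a + 1) hk C h (by omega) (by omega) _ hz
  unfold gen
  rw [map_sum]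
  simpa using this

lemma pow_dvd_card (k j : ℕ) (hk : Odd k) (C : Finset ℕ)
    (h : ∀ r < 4 ^ j, ((tri C j).filter (fun p => phi k p % 4 ^ j = r)).card ≤ C.card) :
    2 ^ j ∣ C.card := by
  have h1 : (∏ a ∈ range j, cyclotomic (2 ^ (2 * a + 1 + 1)) ℤ) ∣ gen C := by
    have hmon : (∏ a ∈ range j, cyclotomic (2 ^ (2 * a + 1 + 1)) ℤ).Monic :=
      monic_prod_of_monic _ _ (fun a _ => cyclotomic.monic _ _)
    rw [← map_dvd_map (Int.castRingHom ℚ) Int.cast_injective hmon, Polynomial.map_prod]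
    apply Finset.prod_dvd_of_coprime
    · intro a _ b _ hab
      simp only [Function.onFun, map_cyclotomic_int]
      apply cyclotomic.isCoprime_rat
      intro he
      have := Nat.pow_right_injective (le_refl 2) he
      omega
    · intro a ha
      exact Polynomial.map_dvd _ (cyc_dvd k j a hk C h (mem_range.1 ha))
  obtain ⟨Q, hQ⟩ := h1
  have h2 := congrArg (eval 1) hQ
  rw [eval_mul, eval_prod] at h2
  have h3 : ∀ a ∈ range j, eval 1 (cyclotomic (2 ^ (2 * a + 1 + 1)) ℤ) = 2 := by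
    intro a _
    have := eval_one_cyclotomic_prime_pow (R := ℤ) (p := 2) (2 * a + 1)
    exact_mod_cast this
  rw [prod_congr rfl h3, prod_const, card_range] at h2
  have h4 : eval 1 (gen C) = (C.card : ℤ) := by
    unfold gen
    rw [eval_finsetSum]
    simp
  rw [h4] at h2
  have h5 : ((2 ^ j : ℕ) : ℤ) ∣ (C.card : ℤ) := ⟨eval 1 Q, by push_cast; exact h2⟩
  exact_mod_cast h5

/-- GROWTH: some residue class is hit at least `|C| + 1` times -/
theorem growth (k j : ℕ) (hk : Odd k) (C : Finset ℕ) (hC : ¬ 2 ^ j ∣ C.card) :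
    ∃ r < 4 ^ j, C.card + 1 ≤ ((tri C j).filter (fun p => phi k p % 4 ^ j = r)).card := by
  by_contra hcon
  push Not at hcon
  apply hC
  apply pow_dvd_card k j hk C
  intro r hr
  have := hcon r hr
  omega

end Pool.Agent.H727R2.BQ
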