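import Mathlib
import Pool.Agent.H727R2.BQ.Growth

set_option autoImplicit false

namespace Pool.Agent.H727R2.BQ

open Finset

/-- all sums `k a + b` with `a, b` having `N` base-4 digits in `{0,1}` are distinct -/
def NoRel (k N : ℕ) : Prop := ∀ S ∈ P N, ∀ T ∈ P N, ∀ S' ∈ P N, ∀ T' ∈ P N,
  k * val S + val T = k * val S' + val T' → S = S' ∧ T = T'

lemma NoRel.mono {k N M : ℕ} (h : NoRel k M) (hNM : N ≤ M) : NoRel k N := by
  intro S hS T hT S' hS' T' hT' he
  have hm : ∀ U ∈ P N, U ∈ P M := by
    intro U hU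
    rw [mem_powerset] at *
    exact hU.trans (range_subset_range.2 hNM)
  exact h S (hm S hS) T (hm T hT) S' (hm S' hS') T' (hm T' hT') he

/-- there is a residue class mod `4 ^ N` with at least `Z` different carries -/
def St (k N Z : ℕ) : Prop := ∃ (C : Finset ℕ) (r : ℕ), C.card = Z ∧
  ∀ c ∈ C, ∃ S ∈ P N, ∃ T ∈ P N, k * val S + val T = r + 4 ^ N * c

lemma cat_inj {N : ℕ} {S T S' T' : Finset ℕ} (hS : S ∈ P N) (hS' : S' ∈ P N)
    (h : cat N S T = cat N S' T') : S = S' ∧ T = T' := by
  have h1 : val S + 4 ^ N * val T = val S' + 4 ^ N * val T' := by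
    rw [← val_cat hS, ← val_cat hS', h]
  have b1 := val_bound hS
  have b2 := val_bound hS'
  have e1 : val S = val S' := by
    have := congrArg (· % 4 ^ N) h1
    simp only [Nat.add_mul_mod_self_left] at this
    rwa [Nat.mod_eq_of_lt (by omega), Nat.mod_eq_of_lt (by omega)] at this
  refine ⟨val_inj e1, val_inj ?_⟩
  rw [e1] at h1
  exact Nat.eq_of_mul_eq_mul_left (by positivity) (Nat.add_left_cancel h1)

lemma step (k N Z j : ℕ) (hk : Odd k) (hZ : ¬ 2 ^ j ∣ Z) (hno : NoRel k (N + j)) (h : St k N Z) :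
    St k (N + j) (Z + 1) := by
  obtain ⟨C, r, hC, hr⟩ := h
  obtain ⟨r1, hr1, hcard⟩ := growth k j hk C (by rw [hC]; exact hZ)
  rw [hC] at hcard
  set F := (tri C j).filter (fun p => phi k p % 4 ^ j = r1) with hF
  -- the concatenated identity
  have key : ∀ p ∈ tri C j, ∃ S ∈ P N, ∃ T ∈ P N, k * val (cat N S p.2.1) + val (cat N T p.2.2)
      = r + 4 ^ N * phi k p ∧ k * val S + val T = r + 4 ^ N * p.1 := by
    rintro ⟨c, S1, T1⟩ hp
    simp only [mem_product] at hp
    obtain ⟨S, hS, T, hT, he⟩ := hr c hp.1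
    refine ⟨S, hS, T, hT, ?_, he⟩
    rw [val_cat hS, val_cat hT]
    unfold phi
    simp only
    calc k * (val S + 4 ^ N * val S1) + (val T + 4 ^ N * val T1)
        = (k * val S + val T) + 4 ^ N * (k * val S1 + val T1) := by ring
      _ = (r + 4 ^ N * c) + 4 ^ N * (k * val S1 + val T1) := by rw [he]
      _ = _ := by ring
  have hinj : ∀ p ∈ F, ∀ q ∈ F, phi k p = phi k q → p = q := by
    rintro ⟨c, S1, T1⟩ hp ⟨c', S1', T1'⟩ hq he
    have hp' := (mem_filter.1 hp).1
    have hq' := (mem_filter.1 hq).1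
    obtain ⟨S, hS, T, hT, e1, e2⟩ := key _ hp'
    obtain ⟨S', hS', T', hT', e1', e2'⟩ := key _ hq'
    simp only [mem_product] at hp' hq'
    simp only at e1 e2 e1' e2'
    have h1 : k * val (cat N S S1) + val (cat N T T1) = k * val (cat N S' S1') + val (cat N T' T1') := by
      rw [e1, e1', he]
    obtain ⟨h2, h3⟩ := hno _ (cat_mem hS hp'.2.1) _ (cat_mem hT hp'.2.2) _ (cat_mem hS' hq'.2.1) _
      (cat_mem hT' hq'.2.2) h1
    obtain ⟨a1, a2⟩ := cat_inj hS hS' h2
    obtain ⟨a3, a4⟩ := cat_inj hT hT' h3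
    subst a1 a2 a3 a4
    have h4 : r + 4 ^ N * c = r + 4 ^ N * c' := by rw [← e2, ← e2']
    have h5 : c = c' := Nat.eq_of_mul_eq_mul_left (by positivity) (Nat.add_left_cancel h4)
    rw [h5]
  have hdiv : ∀ p ∈ F, phi k p = r1 + 4 ^ j * (phi k p / 4 ^ j) := by
    intro p hp
    have := (mem_filter.1 hp).2
    conv_lhs => rw [← Nat.mod_add_div (phi k p) (4 ^ j), this]
  have hcard2 : Z + 1 ≤ (F.image (fun p => phi k p / 4 ^ j)).card := by
    rw [card_image_of_injOn]
    · exact hcard
    · intro p hp q hq he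
      apply hinj p hp q hq
      rw [hdiv p hp, hdiv q hq]
      simp only at he
      rw [he]
  obtain ⟨C', hC'sub, hC'card⟩ := exists_subset_card_eq hcard2
  refine ⟨C', r + 4 ^ N * r1, hC'card, ?_⟩
  intro c' hc'
  obtain ⟨p, hp, rfl⟩ := mem_image.1 (hC'sub hc')
  have hp' := (mem_filter.1 hp).1
  obtain ⟨S, hS, T, hT, e1, _⟩ := key p hp'
  rw [mem_product, mem_product] at hp'
  refine ⟨cat N S p.2.1, cat_mem hS hp'.2.1, cat N T p.2.2, cat_mem hT hp'.2.2, ?_⟩
  rw [e1]
  conv_lhs => rw [hdiv p hp]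
  rw [pow_add]
  ring

/-- the number of digits used -/
def g (Z : ℕ) : ℕ := Z + padicValNat 2 Z.factorial

lemma chain (k : ℕ) (hk : Odd k) (Z : ℕ) (hno : NoRel k (g Z)) : St k (g Z) (Z + 1) := by
  induction Z with
  | zero =>
    refine ⟨{0}, 0, by simp, ?_⟩
    intro c hc
    rw [mem_singleton] at hc
    subst hc
    refine ⟨∅, by simp, ∅, by simp, ?_⟩
    simp [val]
  | succ n ih =>
    have hg : g (n + 1) = g n + (padicValNat 2 (n + 1) + 1) := by
      unfold g
      rw [Nat.factorial_succ, padicValNat.mul (by omega) (Nat.factorial_ne_zero n)]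
      ring
    rw [hg] at hno ⊢
    apply step k (g n) (n + 1) _ hk _ hno (ih (hno.mono (by omega)))
    intro h
    have := (padicValNat_dvd_iff_le (p := 2) (a := n + 1) (n := padicValNat 2 (n + 1) + 1)
      (by omega)).1 h
    omega

lemma g_le (Z : ℕ) : Z ≤ g Z ∧ g Z ≤ 2 * Z := by
  unfold g
  have := sub_one_mul_padicValNat_factorial (p := 2) Z
  constructor
  · omega
  · have h : padicValNat 2 Z.factorial ≤ Z := by
      have h2 : (2 - 1) * padicValNat 2 Z.factorial = padicValNat 2 Z.factorial := by norm_num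
      rw [h2] at this
      omega
    omega

/-- the number of carries in one residue class is at most `2 ^ n` -/
lemma carries (k n N Z : ℕ) (hk : k ≤ 4 ^ n) (hn : n ≤ N) (h : St k N Z) : Z ≤ 2 ^ n := by
  obtain ⟨C, r, hC, hr⟩ := h
  choose! S hS T hT he using hr
  -- the top part of `S c`
  let top : ℕ → ℕ := fun c => val (S c) / 4 ^ (N - n)
  obtain ⟨M, rfl⟩ : ∃ M, N = M + n := ⟨N - n, by omega⟩
  have hsplit : ∀ c ∈ C, ∃ U ∈ P M, ∃ V ∈ P n, val (S c) = val U + 4 ^ M * val V := by
    intro c hc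
    have hSc := mem_powerset.1 (hS c hc)
    refine ⟨(S c).filter (· < M), ?_, ((S c).filter (M ≤ ·)).image (· - M), ?_, ?_⟩
    · rw [mem_powerset]
      intro a ha
      exact mem_range.2 (mem_filter.1 ha).2
    · rw [mem_powerset]
      intro a ha
      obtain ⟨b, hb, rfl⟩ := mem_image.1 ha
      have h1 := (mem_filter.1 hb)
      have h2 := mem_range.1 (hSc h1.1)
      exact mem_range.2 (by omega)
    · unfold val
      rw [sum_image, mul_sum]
      · have : ∀ i ∈ (S c).filter (M ≤ ·), 4 ^ M * 4 ^ (i - M) = 4 ^ i := by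
          intro i hi
          have := (mem_filter.1 hi).2
          rw [← pow_add]
          congr 1
          omega
        rw [sum_congr rfl this]
        rw [← sum_filter_add_sum_filter_not (S c) (· < M)]
        simp only [not_lt]
      · intro a ha b hb hab
        have h1 := (mem_filter.1 ha).2
        have h2 := (mem_filter.1 hb).2
        simp only at hab
        omega
  choose! U hU V hV hUV using hsplit
  have hinj : Set.InjOn V C := by
    intro c hc c' hc' hVV
    have e := he c hc
    have e' := he c' hc'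
    rw [hUV c hc] at e
    rw [hUV c' hc', ← hVV] at e'
    have b1 := val_bound (hU c hc)
    have b2 := val_bound (hU c' hc')
    have b3 := val_bound (hT c hc)
    have b4 := val_bound (hT c' hc')
    have b5 : 3 * (k * val (U c)) < 4 ^ (M + n) ∨ k * val (U c) = 0 := by
      rcases Nat.eq_zero_or_pos (val (U c)) with h0 | h0
      · right; rw [h0]; ring
      · left
        calc 3 * (k * val (U c)) = k * (3 * val (U c)) := by ring
          _ ≤ 4 ^ n * (3 * val (U c)) := Nat.mul_le_mul_right _ hk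
          _ < 4 ^ n * 4 ^ M := Nat.mul_lt_mul_of_pos_left b1 (by positivity)
          _ = 4 ^ (M + n) := by ring
    have b6 : 3 * (k * val (U c')) < 4 ^ (M + n) ∨ k * val (U c') = 0 := by
      rcases Nat.eq_zero_or_pos (val (U c')) with h0 | h0
      · right; rw [h0]; ring
      · left
        calc 3 * (k * val (U c')) = k * (3 * val (U c')) := by ring
          _ ≤ 4 ^ n * (3 * val (U c')) := Nat.mul_le_mul_right _ hk
          _ < 4 ^ n * 4 ^ M := Nat.mul_lt_mul_of_pos_left b2 (by positivity)
          _ = 4 ^ (M + n) := by ring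
    set Q := 4 ^ (M + n) with hQ
    set x := k * val (U c)
    set x' := k * val (U c')
    set y := k * (4 ^ M * val (V c))
    have e1 : x + y + val (T c) = r + Q * c := by
      rw [← e]; ring
    have e2 : x' + y + val (T c') = r + Q * c' := by
      rw [← e']; ring
    have hQpos : 0 < Q := by positivity
    rcases lt_trichotomy c c' with hlt | heq | hgt
    · exfalso
      have : Q * (c + 1) ≤ Q * c' := Nat.mul_le_mul_left _ hlt
      have h7 : Q * (c + 1) = Q * c + Q := by ring
      rcases b5 with b5 | b5 <;> rcases b6 with b6 | b6 <;> omega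
    · exact heq
    · exfalso
      have : Q * (c' + 1) ≤ Q * c := Nat.mul_le_mul_left _ hgt
      have h7 : Q * (c' + 1) = Q * c' + Q := by ring
      rcases b5 with b5 | b5 <;> rcases b6 with b6 | b6 <;> omega
  have h1 : C.card ≤ (P n).card := card_le_card_of_injOn V (fun c hc => hV c hc) hinj
  rw [card_powerset, card_range, hC] at h1
  exact h1

/-- two different pairs with the same sum -/
theorem relation (k n : ℕ) (hk : Odd k) (hkn : k ≤ 4 ^ n) : ¬ NoRel k (g (2 ^ n)) := by
  intro hno
  have h1 := chain k hk (2 ^ n) hno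
  have h2 := carries k n _ _ hkn (le_trans (Nat.lt_two_pow_self).le (g_le _).1) h1
  omega

end Pool.Agent.H727R2.BQ
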